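import Pool.Agent.U707.LI.AllP

/-!
# Serre's conjecture over imaginary quadratic fields: any cohomology class suffices

`p` is an odd prime, `k = 𝔽̄_p`, `K` a number field (for instance imaginary quadratic of class
number one), `R` a continuous irreducible representation of dimension two of its Galois group over
`k`, `M` a finite dimensional space over `k` (for instance `H^1(Y_0(𝔑), k)`, which includes the torsion
of the integral cohomology), with commuting operators `H v` (the Hecke operators `T_π`) for `v`
outside a set `S` (the divisors of `p 𝔑`), such that there is a two-dimensional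
pseudorepresentation of the Galois group with values in the Hecke algebra, in which the traces of
the Frobenius elements are the `H v` (Scholze; Newton and Thorne, Caraiani et al.).

Suppose that for SOME class `c` of `M`, not necessarily an eigenclass, and some linear form `l`
on `M` (a period, a coefficient), the traces of `R` are `l(T_v c)`, for all places `v` outside of a
set of density zero. Then there is an eigenclass of the same level: a nonzero `c'` in `M`, and a ring
homomorphism `Φ` from the Hecke algebra to `k`, with `T_v c' = Φ(T_v) c'` and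
`Φ(T_v) = tr R(Frob_v)` for ALL `v` outside of `S`. So `R` is modular of the level `𝔑`.

Parts of the proof are by helper141, helper851 and helper591 (see `Pool.Agent.U707.LI.AllP`).
-/

set_option autoImplicit false

namespace Pool.Agent.Results.MP_94f623_nt.AnyClass

open NumberField IsDedekindDomain Module Pool.Agent.W401.Cheb Pool.Agent.U707.LI

/-- **Any cohomology class suffices for the modularity.** -/
theorem result {K : Type} [Field K] [NumberField K] {p : ℕ} [Fact p.Prime] (hp : p ≠ 2)
    (R : ModPRep K (AlgebraicClosure (ZMod p)))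
    -- the cohomology and the Hecke operators
    {M : Type} [AddCommGroup M] [Module (AlgebraicClosure (ZMod p)) M]
    [FiniteDimensional (AlgebraicClosure (ZMod p)) M]
    (S : Set (HeightOneSpectrum (𝓞 K)))
    (H : HeightOneSpectrum (𝓞 K) → Module.End (AlgebraicClosure (ZMod p)) M)
    (hH : HasGalois S H)
    -- the class, the linear form and the relation
    (c : M) (l : M →ₗ[AlgebraicClosure (ZMod p)] AlgebraicClosure (ZMod p))
    {B : Set (HeightOneSpectrum (𝓞 K))} (hB : DensityZero B)
    (h : ∀ v ∉ B, v ∉ S ∧ ∀ σ, IsFrob v σ → R.tr σ = l (H v c)) :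
    ∃ c' : M, c' ≠ 0 ∧ ∃ Φ : Hecke S H →ₐ[AlgebraicClosure (ZMod p)] AlgebraicClosure (ZMod p),
      (∀ T : Hecke S H, T.1 c' = Φ T • c') ∧
      ∀ v ∉ S, ∀ σ, IsFrob v σ → ∀ T : Hecke S H, T.1 = H v → Φ T = R.tr σ := by
  classical
  have h2 : (2 : AlgebraicClosure (ZMod p)) ≠ 0 := by
    intro h0
    have h1 : ((2 : ℕ) : AlgebraicClosure (ZMod p)) = 0 := by exact_mod_cast h0
    have h3 := (CharP.cast_eq_zero_iff (AlgebraicClosure (ZMod p)) p 2).1 h1
    exact hp ((Nat.prime_dvd_prime_iff_eq Fact.out Nat.prime_two).1 h3)
  obtain ⟨c', hc', h'⟩ := modPThm h2 R S H hH c l hB h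
  -- every element of the Hecke algebra acts on `c'` by a scalar
  have hsc : ∀ T ∈ Algebra.adjoin (AlgebraicClosure (ZMod p)) (H '' Sᶜ),
      ∃ a : AlgebraicClosure (ZMod p), T c' = a • c' := by
    intro T hT
    induction hT using Algebra.adjoin_induction with
    | mem x hx =>
      obtain ⟨v, hv, rfl⟩ := hx
      obtain ⟨σ, hσ⟩ := Pool.Agent.W401.Frob.exists_frob v
      exact ⟨_, h' v hv σ hσ⟩
    | algebraMap r => exact ⟨r, by rw [Module.algebraMap_end_apply]⟩
    | add x y _ _ hx hy =>
      obtain ⟨a, ha⟩ := hx
      obtain ⟨b, hb⟩ := hy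
      exact ⟨a + b, by rw [LinearMap.add_apply, ha, hb, add_smul]⟩
    | mul x y _ _ hx hy =>
      obtain ⟨a, ha⟩ := hx
      obtain ⟨b, hb⟩ := hy
      exact ⟨b * a, by rw [Module.End.mul_apply, hb, map_smul, ha, smul_smul]⟩
  choose f hf using hsc
  have huniq : ∀ a b : AlgebraicClosure (ZMod p), a • c' = b • c' → a = b := fun a b hab =>
    smul_left_injective _ hc' hab
  refine ⟨c', hc', AlgHom.ofLinearMap
    { toFun := fun T => f T T.2
      map_add' := fun T T' => huniq _ _ ?_
      map_smul' := fun a T => huniq _ _ ?_ } ?_ ?_, fun T => hf T T.2, fun v hv σ hσ T hT => ?_⟩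
  · rw [← hf, add_smul, ← hf, ← hf]
    rfl
  · rw [← hf, RingHom.id_apply, smul_eq_mul, mul_smul, ← hf]
    rfl
  · exact huniq _ _ (by
      change f 1 _ • c' = _
      rw [← hf, one_smul]
      rfl)
  · intro T T'
    exact huniq _ _ (by
      change f _ _ • c' = (f _ _ * f _ _) • c'
      rw [← hf, mul_comm, mul_smul, ← hf, ← map_smul, ← hf]
      rfl)
  · exact huniq _ _ (by
      change f _ _ • c' = _
      rw [← hf, hT, h' v hv σ hσ])

end Pool.Agent.Results.MP_94f623_nt.AnyClass
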